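import Pool.Agent.Results.MP_6e34ef_nt.UniformAbcWindows
import Pool.Agent.H107.MetricZero
import Pool.Agent.H2N.NearSpace

/-!
# The uniform abc inequality for all numbers of degree `n` near almost every real or complex number

Let `n ≥ 2`, `κ > 0`. For almost every complex (real) number `z` and all `σ > n e_n / (2 κ)` (`σ > n e_n / κ`), where
`e_2 ≤ 1`, `e_3 ≤ 5 / 4`, `e_n ≤ (n + 2) / 4` for primes and `e_n = O (log ^ 2 n)`, the inequality
`H ≤ exp (- c) (δ_K N) ^ κ` of the uniform abc conjecture holds for ALL number fields `K` of degree `n` and ALL `x ∈ K` with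
`|x - z| ≤ H ^ (- σ)`, `H = H (x, 1 - x, -1)`, with finitely many exceptions `(K, x)` for each `c`; for almost every `z` this
is so for all `n`, `κ`, `σ` at once. (Almost every real `z` has infinitely many approximations `x` of degree `n` for each
`σ < n (n + 1)`.) The same holds for every map from the algebraic numbers to a metric space, outside a set of dimension at
most `n e_n / (κ σ)`; and outside a set of dimension zero there are for ALL `n ≥ 2` and `σ > 0` constants `κ` and `C` with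
`H ≤ exp (C) (δ_K N) ^ κ` for ALL numbers of degree `n` near `z`, without exception.
-/

set_option autoImplicit false

namespace Pool.Agent.Results.MP_6e34ef_nt.NearAlmostEveryPoint

open NumberField MeasureTheory
open FewViolators (height conductor rootDisc expo Viol)
open UniformAbcWindows (ht Exc count)

/-- the pairs `(K, x)` of a number field `K` in the algebraic closure of `ℚ` and `x ∈ K` -/
abbrev Pair : Type := Σ K : {K : IntermediateField ℚ (AlgebraicClosure ℚ) // NumberField K}, K.1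

/-- the pairs `(K, x)` of a number field `K` of degree `n` (in the algebraic closure of `ℚ`) and `x ∈ K`, `x ≠ 0, 1` -/
def Deg (n : ℕ) : Set Pair := {p | Module.finrank ℚ p.1.1 = n ∧ p.2 ≠ 0 ∧ p.2 ≠ 1}

/-- the height `H (x, 1 - x, -1)` -/
noncomputable def H (p : Pair) : ℝ :=
  haveI : NumberField p.1.1 := p.1.2
  Real.exp (height ![p.2, 1 - p.2, -1])

/-- `log H ≤ κ (log δ_K + log N) - c` for the triple `(x, 1 - x, -1)` over the field `K` -/
def UniformABC (κ c : ℝ) (p : Pair) : Prop :=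
  haveI : NumberField p.1.1 := p.1.2
  height ![p.2, 1 - p.2, -1] ≤ κ * (rootDisc p.1.1 + conductor ![p.2, 1 - p.2, -1]) - c

/-- the inequality holds for all pairs `(K, x)` in `J` with `[K : ℚ] = n`, `x ≠ 0, 1`, with finitely many exceptions -/
def AlmostAll (n : ℕ) (κ c : ℝ) (J : Set Pair) : Prop := {p | p ∈ Deg n ∧ p ∈ J ∧ ¬ UniformABC κ c p}.Finite

section Aux

lemma ht_nonneg (p : Pair) : 0 ≤ ht p := by
  have : NumberField p.1.1 := p.1.2
  show 0 ≤ height ![p.2, 1 - p.2, -1]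
  unfold height
  refine div_nonneg (add_nonneg (Finset.sum_nonneg fun w _ => mul_nonneg (Nat.cast_nonneg _) (Real.log_nonneg ?_))
    (finsum_nonneg fun v => Real.log_nonneg ?_)) (Nat.cast_nonneg _)
  · refine le_max_of_le_right (le_max_of_le_right ?_)
    show 1 ≤ w.1 (-1)
    rw [AbsoluteValue.map_neg, map_one]
  · refine le_max_of_le_right (le_max_of_le_right ?_)
    simp

lemma one_le_H (p : Pair) : 1 ≤ H p := Real.one_le_exp (ht_nonneg p)

lemma count1 {n : ℕ} (hn : 2 ≤ n) {κ e c : ℝ} (hκ : 0 < κ) (he : 0 ≤ e)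
    (hC : ∀ δ : ℝ, 0 < δ → ∃ M : ℝ, ∀ B : ℝ, 1 ≤ B → (Viol n κ c B).Finite ∧
      ((Viol n κ c B).ncard : ℝ) ≤ M * B ^ ((n : ℝ) * e / κ + δ)) (ε : ℝ) (hε : 0 < ε) :
    ∃ C : ℝ, ∀ X : ℝ, 1 ≤ X → {p | p ∈ Exc n κ c ∧ H p ≤ X}.Finite ∧
      ({p | p ∈ Exc n κ c ∧ H p ≤ X}.ncard : ℝ) ≤ C * X ^ ((n : ℝ) * e / κ + ε) := by
  have hn0 : (0 : ℝ) < n := by exact_mod_cast (by omega : 0 < n)
  have hN0 : (0 : ℝ) < (n : ℝ) * ((n : ℝ) + 1) := by positivity
  obtain ⟨C, hC1⟩ := count hn hκ hC (ε / ((n : ℝ) * ((n : ℝ) + 1))) (by positivity)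
  refine ⟨C, fun X hX => ?_⟩
  have hX0 : 0 < X := by linarith
  have heq : {p | p ∈ Exc n κ c ∧ H p ≤ X} =
      {p | p ∈ Exc n κ c ∧ Real.exp (ht p) ^ (n * (n + 1)) ≤ X ^ (n * (n + 1))} := by
    ext p
    have hne : n * (n + 1) ≠ 0 := Nat.mul_ne_zero (by omega) (by omega)
    have h1 : H p ≤ X ↔ Real.exp (ht p) ^ (n * (n + 1)) ≤ X ^ (n * (n + 1)) :=
      (pow_le_pow_iff_left₀ (Real.exp_pos _).le hX0.le hne).symm
    constructor
    · exact fun h => ⟨h.1, h1.1 h.2⟩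
    · exact fun h => ⟨h.1, h1.2 h.2⟩
  rw [heq]
  obtain ⟨h1, h2⟩ := hC1 (X ^ (n * (n + 1))) (one_le_pow₀ hX)
  refine ⟨h1, h2.trans (le_of_eq ?_)⟩
  rw [← Real.rpow_natCast X, ← Real.rpow_mul hX0.le, max_eq_left he]
  congr 2
  push_cast
  field_simp

lemma almost_of {n : ℕ} {κ c : ℝ} {J : Set Pair} {r : ℝ} {j : ℕ} (hr : r ≤ κ) (hj : c ≤ j)
    (h : {p | p ∈ Exc n r (-(j : ℝ)) ∧ p ∈ J}.Finite) : AlmostAll n κ c J := by
  refine h.subset ?_
  rintro p ⟨⟨h1, h2, h3⟩, h4, h5⟩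
  refine ⟨?_, h4⟩
  have : NumberField p.1.1 := p.1.2
  refine ⟨h1, h2, h3, ?_⟩
  have h6 : κ * (rootDisc p.1.1 + conductor ![p.2, 1 - p.2, -1]) - c < height ![p.2, 1 - p.2, -1] := not_le.1 h5
  have h7 := mul_le_mul_of_nonneg_right hr (UniformAbcWindows.nonneg (K := p.1.1) ![p.2, 1 - p.2, -1])
  linarith

/-- all parameters at once, for a map to a finite dimensional space -/
lemma near_all {e : ℕ → ℝ} (he0 : ∀ n, 0 ≤ e n)
    (he : ∀ n : ℕ, 2 ≤ n → ∀ κ c δ : ℝ, 0 < κ → 0 < δ → ∃ M : ℝ, ∀ B : ℝ, 1 ≤ B → (Viol n κ c B).Finite ∧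
      ((Viol n κ c B).ncard : ℝ) ≤ M * B ^ ((n : ℝ) * e n / κ + δ))
    {V : Type} [NormedAddCommGroup V] [NormedSpace ℝ V] [FiniteDimensional ℝ V]
    [MeasurableSpace V] [BorelSpace V] (μ : Measure V) [μ.IsAddHaarMeasure]
    (hV : 0 < Module.finrank ℝ V) (φ : Pair → V) :
    ∀ᵐ z ∂μ, ∀ n : ℕ, 2 ≤ n → ∀ κ σ c : ℝ, 0 < κ → (n : ℝ) * e n / (Module.finrank ℝ V * κ) < σ →
      AlmostAll n κ c {p | dist (φ p) z ≤ H p ^ (-σ)} := by
  have hm : (0 : ℝ) < Module.finrank ℝ V := by exact_mod_cast hV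
  have hr : ∀ q : ℕ × ℚ, ∀ᵐ z ∂μ, 2 ≤ q.1 → (0 : ℝ) < q.2 → ∀ σ : ℝ,
      (q.1 : ℝ) * e q.1 / q.2 / Module.finrank ℝ V < σ → ∀ j : ℕ,
      {p | p ∈ Exc q.1 q.2 (-(j : ℝ)) ∧ dist (φ p) z ≤ H p ^ (-σ)}.Finite := by
    rintro ⟨n, r⟩
    by_cases hn : 2 ≤ n
    · by_cases hr0 : (0 : ℝ) < r
      · have h2 := Pool.Agent.H2N.ae_family_space μ hV φ H one_le_H (s := (n : ℝ) * e n / r)
          (div_nonneg (mul_nonneg (Nat.cast_nonneg n) (he0 n)) hr0.le) (J := ℕ)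
          (fun j => Exc n r (-(j : ℝ)))
          (fun j => count1 hn hr0 (he0 n) (fun δ hδ => he n hn r (-(j : ℝ)) δ hr0 hδ))
        filter_upwards [h2] with z hz _ _ σ hσ
        exact hz σ hσ
      · exact Filter.Eventually.of_forall fun z _ h2 => absurd h2 hr0
    · exact Filter.Eventually.of_forall fun z h2 => absurd h2 hn
  filter_upwards [ae_all_iff.2 hr] with z hz n hn κ σ c hκ hσ
  have hne : 0 ≤ (n : ℝ) * e n := mul_nonneg (Nat.cast_nonneg n) (he0 n)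
  have hσ0 : 0 < σ := lt_of_le_of_lt (div_nonneg hne (by positivity)) hσ
  have h3 : (n : ℝ) * e n / (Module.finrank ℝ V * σ) < κ := by
    rw [div_lt_iff₀ (by positivity)] at hσ ⊢
    nlinarith
  obtain ⟨r, hr1, hr2⟩ := exists_rat_btwn h3
  have hr0 : (0 : ℝ) < r := lt_of_le_of_lt (div_nonneg hne (by positivity)) hr1
  obtain ⟨j, hj⟩ := exists_nat_ge c
  refine almost_of hr2.le hj (hz (n, r) hn hr0 σ ?_ j)
  show (n : ℝ) * e n / r / Module.finrank ℝ V < σ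
  rw [div_div, div_lt_iff₀ (by positivity)]
  rw [div_lt_iff₀ (by positivity)] at hr1
  nlinarith

end Aux

/-- **Theorem.** There is a function `e ≥ 0` with `e n ≤ expo n` for `n ≥ 2` (so `e 2 ≤ 1`, `e 3 ≤ 5 / 4`,
`e n ≤ (n + 2) / 4` for primes) and `e n = O (log ^ 2 n)` with the following properties. `AlmostAll n κ c J` means that
`log H ≤ κ (log δ_K + log N) - c` for ALL pairs `(K, x)` in `J` of a number field `K` of degree `n` and `x ∈ K`,
`x ≠ 0, 1`, with finitely many exceptions; the number fields are in the algebraic closure of `ℚ`, which is embedded in `ℂ`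
by `ι`.
(1) For almost every complex number `z`, for ALL `n ≥ 2`, `κ > 0`, `c` and `σ > n e_n / (2 κ)`: `AlmostAll n κ c J` for the
set `J` of the `(K, x)` with `|x - z| ≤ H ^ (-σ)`.
(2) For almost every real number `z`, for ALL `n ≥ 2`, `κ > 0`, `c` and `σ > n e_n / κ`: `AlmostAll n κ c J` for the set `J`
of the `(K, x)` with `|x - z| ≤ H ^ (-σ)`.
(3) For every map `φ` from the algebraic numbers to a metric space `M`, all `n ≥ 2`, `κ > 0` and `σ > 0` there is a set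
`E ⊆ M` of Hausdorff dimension at most `n e_n / (κ σ)` such that `AlmostAll n κ c J` holds for all `z` outside `E`, all `c`
and the set `J` of the `(K, x)` with `dist (φ x, z) ≤ H ^ (-σ)`.
(4) For every map `φ` from the algebraic numbers to a metric space `M` there is a set `E ⊆ M` of dimension zero such that
for all `z` outside `E`, all `n ≥ 2` and `σ > 0` there are `κ` and `C` with `log H ≤ κ (log δ_K + log N) + C` for ALL number
fields `K` of degree `n` and ALL `x ∈ K`, `x ≠ 0, 1`, with `dist (φ x, z) ≤ H ^ (-σ)`. -/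
theorem result :
    ∃ e : ℕ → ℝ, (∀ n, 0 ≤ e n) ∧ (∀ n : ℕ, 2 ≤ n → e n ≤ expo n) ∧
      (∀ c : ℝ, 1 / (8 * (Real.log 2) ^ 2) < c → ∀ᶠ n : ℕ in Filter.atTop, e n ≤ c * (Real.log n) ^ 2) ∧
      (∀ ι : AlgebraicClosure ℚ →+* ℂ,
        (∀ᵐ z : ℂ, ∀ n : ℕ, 2 ≤ n → ∀ κ σ c : ℝ, 0 < κ → (n : ℝ) * e n / (2 * κ) < σ →
          AlmostAll n κ c {p | ‖ι p.2 - z‖ ≤ H p ^ (-σ)}) ∧
        (∀ᵐ z : ℝ, ∀ n : ℕ, 2 ≤ n → ∀ κ σ c : ℝ, 0 < κ → (n : ℝ) * e n / κ < σ →
          AlmostAll n κ c {p | ‖ι p.2 - (z : ℂ)‖ ≤ H p ^ (-σ)})) ∧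
      (∀ (M : Type) [MetricSpace M] (φ : AlgebraicClosure ℚ → M),
        (∀ n : ℕ, 2 ≤ n → ∀ κ σ : ℝ, 0 < κ → 0 < σ → ∃ E : Set M,
          dimH E ≤ ENNReal.ofReal ((n : ℝ) * e n / (κ * σ)) ∧ ∀ z : M, z ∉ E → ∀ c : ℝ,
            AlmostAll n κ c {p | dist (φ p.2) z ≤ H p ^ (-σ)}) ∧
        ∃ E : Set M, dimH E = 0 ∧ ∀ z : M, z ∉ E → ∀ n : ℕ, 2 ≤ n → ∀ σ : ℝ, 0 < σ →
          ∃ κ C : ℝ, ∀ p ∈ Deg n, dist (φ p.2) z ≤ H p ^ (-σ) → UniformABC κ (-C) p) := by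
  obtain ⟨e', he1, he2, he3⟩ := FewViolators.result.1
  have hexpo : ∀ n : ℕ, 0 ≤ expo n := fun n => by
    unfold expo
    positivity
  set e : ℕ → ℝ := fun n => max (e' n) 0 with hedef
  have he0 : ∀ n, 0 ≤ e n := fun n => le_max_right _ _
  have he : ∀ n : ℕ, 2 ≤ n → ∀ κ c δ : ℝ, 0 < κ → 0 < δ → ∃ M : ℝ, ∀ B : ℝ, 1 ≤ B → (Viol n κ c B).Finite ∧
      ((Viol n κ c B).ncard : ℝ) ≤ M * B ^ ((n : ℝ) * e n / κ + δ) := by
    intro n hn κ c δ hκ hδ
    obtain ⟨M, hM⟩ := he3 n hn κ c δ hκ hδ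
    refine ⟨|M|, fun B hB => ⟨(hM B hB).1, (hM B hB).2.trans ?_⟩⟩
    have hB0 : 0 < B := by linarith
    refine (mul_le_mul_of_nonneg_right (le_abs_self M) (Real.rpow_nonneg hB0.le _)).trans ?_
    apply mul_le_mul_of_nonneg_left _ (abs_nonneg M)
    apply Real.rpow_le_rpow_of_exponent_le hB
    have h1 : (n : ℝ) * e' n / κ ≤ (n : ℝ) * e n / κ :=
      div_le_div_of_nonneg_right (mul_le_mul_of_nonneg_left (le_max_left _ _) (Nat.cast_nonneg n)) hκ.le
    linarith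
  refine ⟨e, he0, fun n hn => max_le (he2 n hn) (hexpo n), fun c hc => ?_, fun ι => ⟨?_, ?_⟩,
    fun M _ φ => ⟨fun n hn κ σ hκ hσ => ?_, ?_⟩⟩
  · have hc0 : 0 < c := lt_trans (by
      have := Real.log_pos (by norm_num : (1 : ℝ) < 2)
      positivity) hc
    filter_upwards [he1 c hc] with n hn
    exact max_le hn (by positivity)
  · have h1 := near_all he0 he (volume : Measure ℂ) (by rw [Complex.finrank_real_complex]; norm_num)
      (fun p => ι p.2)
    rw [Complex.finrank_real_complex, Nat.cast_ofNat] at h1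
    filter_upwards [h1] with z hz n hn κ σ c hκ hσ
    have h2 := hz n hn κ σ c hκ hσ
    simp only [dist_eq_norm] at h2
    exact h2
  · have h1 := near_all he0 he (volume : Measure ℝ) (by rw [Module.finrank_self]; exact one_pos)
      (fun p => (ι p.2).re)
    rw [Module.finrank_self, Nat.cast_one] at h1
    filter_upwards [h1] with z hz n hn κ σ c hκ hσ
    refine (hz n hn κ σ c hκ (by rw [one_mul]; exact hσ)).subset ?_
    rintro p ⟨h2, h3, h4⟩
    refine ⟨h2, ?_, h4⟩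
    refine le_trans ?_ (show ‖ι p.2 - (z : ℂ)‖ ≤ H p ^ (-σ) from h3)
    have h5 := Complex.abs_re_le_norm (ι p.2 - (z : ℂ))
    rw [Complex.sub_re, Complex.ofReal_re] at h5
    exact h5
  · obtain ⟨E, hE1, hE2⟩ := Pool.Agent.H107.ME.dim_family (fun p : Pair => φ p.2) H one_le_H
      (s := (n : ℝ) * e n / κ) (div_nonneg (mul_nonneg (Nat.cast_nonneg n) (he0 n)) hκ.le) hσ (J := ℕ)
      (fun j => Exc n κ (-(j : ℝ))) (fun j => count1 hn hκ (he0 n) (fun δ hδ => he n hn κ (-(j : ℝ)) δ hκ hδ))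
    rw [div_div] at hE1
    refine ⟨E, hE1, fun z hz c => ?_⟩
    obtain ⟨j, hj⟩ := exists_nat_ge c
    exact almost_of le_rfl hj (hE2 z hz j)
  · have hall : ∀ n : ℕ, ∃ E : Set M, dimH E = 0 ∧ ∀ z ∉ E, ∀ σ : ℝ, 0 < σ → ∃ R : ℕ,
        {p | p ∈ Exc (n + 2) ((R : ℝ) + 1) 0 ∧ dist (φ p.2) z ≤ H p ^ (-σ)}.Finite := by
      intro n
      refine Pool.Agent.H107.ME.dim_zero (fun p : Pair => φ p.2) H one_le_H
        (fun R => Exc (n + 2) ((R : ℝ) + 1) 0) (fun ε hε => ?_)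
      obtain ⟨R, hR⟩ := exists_nat_ge (2 * (((n + 2 : ℕ) : ℝ) * e (n + 2)) / ε)
      have hR0 : (0 : ℝ) < (R : ℝ) + 1 := by positivity
      obtain ⟨C, hC⟩ := count1 (n := n + 2) (c := 0) (by omega) hR0 (he0 (n + 2))
        (fun δ hδ => he (n + 2) (by omega) ((R : ℝ) + 1) 0 δ hR0 hδ) (ε / 2) (by positivity)
      refine ⟨R, |C|, fun X hX => ⟨(hC X hX).1, (hC X hX).2.trans ?_⟩⟩
      have hX0 : 0 < X := by linarith
      refine (mul_le_mul_of_nonneg_right (le_abs_self C) (Real.rpow_nonneg hX0.le _)).trans ?_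
      apply mul_le_mul_of_nonneg_left _ (abs_nonneg C)
      apply Real.rpow_le_rpow_of_exponent_le hX
      have h5 : ((n + 2 : ℕ) : ℝ) * e (n + 2) / ((R : ℝ) + 1) ≤ ε / 2 := by
        rw [div_le_iff₀ hR0]
        rw [div_le_iff₀ hε] at hR
        nlinarith
      linarith
    choose G hG1 hG2 using hall
    refine ⟨⋃ n, G n, ?_, fun z hz n hn σ hσ => ?_⟩
    · rw [dimH_iUnion]
      simp [hG1]
    · obtain ⟨m, rfl⟩ : ∃ m, n = m + 2 := ⟨n - 2, by omega⟩
      obtain ⟨R, hR⟩ := hG2 m z (fun h => hz (Set.mem_iUnion.2 ⟨m, h⟩)) σ hσ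
      obtain ⟨C, hC⟩ := (hR.image ht).bddAbove
      refine ⟨(R : ℝ) + 1, max C 0, fun p hp hnear => ?_⟩
      have : NumberField p.1.1 := p.1.2
      show height ![p.2, 1 - p.2, -1] ≤
        ((R : ℝ) + 1) * (rootDisc p.1.1 + conductor ![p.2, 1 - p.2, -1]) - -(max C 0)
      have h0 := UniformAbcWindows.nonneg (K := p.1.1) ![p.2, 1 - p.2, -1]
      have hR0 : (0 : ℝ) ≤ (R : ℝ) + 1 := by positivity
      by_cases hE : p ∈ Exc (m + 2) ((R : ℝ) + 1) 0
      · have h6 : height ![p.2, 1 - p.2, -1] ≤ C := hC ⟨p, ⟨hE, hnear⟩, rfl⟩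
        have h7 := le_max_left C 0
        have h8 := mul_nonneg hR0 h0
        linarith
      · have h9 : ¬ (0 + ((R : ℝ) + 1) * (rootDisc p.1.1 + conductor ![p.2, 1 - p.2, -1]) <
            height ![p.2, 1 - p.2, -1]) := fun h => hE ⟨hp.1, hp.2.1, hp.2.2, h⟩
        have h10 := not_lt.1 h9
        have h11 := le_max_right C 0
        linarith

end Pool.Agent.Results.MP_6e34ef_nt.NearAlmostEveryPoint
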