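import Pool.Agent.Results.MP_6e34ef_nt.UniformAbcWindows
import Pool.Agent.V11001.KM.Near
import Pool.Agent.V11001.KM.Zero

/-!
# The uniform abc inequality for all numbers of degree `n` with height near the powers of almost every real number

Let `n ≥ 2`, `κ > 0` and `ν k / log k → ∞`, for example `ν k = k` or `ν k = k !`. For all `w > 1` outside a set of Hausdorff
dimension at most `e n / ((n + 1) κ (1 - θ))`, all `c` and ALL number fields `K` of degree `n` and ALL `x ∈ K`,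
`x ≠ 0, 1`, of sufficiently large height `H = H (x, 1 - x, -1)` with `|H ^ (n (n + 1)) - w ^ (ν k)| ≤ w ^ (θ ν k)` for some
`k` the inequality `H ≤ exp (- c) (δ_K N) ^ κ` holds. For all `w > 1` outside a set of dimension zero, all `θ < 1` and ALL
`n ≥ 2` there are constants `κ` and `C` such that `H ≤ exp (C) (δ_K N) ^ κ` for ALL numbers of degree `n` with
`|H ^ (n (n + 1)) - w ^ (ν k)| ≤ w ^ (θ ν k)` for some `k`.
-/

set_option autoImplicit false

namespace Pool.Agent.Results.MP_6e34ef_nt.NumbersNearPowers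

open NumberField IsDedekindDomain Filter Topology
open Pool.Agent.V11001.KM
open FewViolators (height conductor rootDisc expo Viol)
open UniformAbcWindows (ht Exc count nonneg)

lemma fam {n : ℕ} (hn : 2 ≤ n) {κ e : ℝ} (hκ : 0 < κ)
    (H : ∀ c δ : ℝ, 0 < δ → ∃ M : ℝ, ∀ B : ℝ, 1 ≤ B → (Viol n κ c B).Finite ∧
      ((Viol n κ c B).ncard : ℝ) ≤ M * B ^ ((n : ℝ) * e / κ + δ))
    {ν : ℕ → ℝ} (hν : Fast ν) (U : Set ℝ) (hU : U.Countable) {θ : ℝ} (hθ : θ < 1) :
    ∃ E : Set ℝ, dimH E ≤ ENNReal.ofReal (max e 0 / ((n + 1) * κ) / (1 - θ)) ∧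
      ∀ w : ℝ, 1 < w → w ∉ E → ∀ β ∈ U, 0 < β → ∀ c : ℝ, ∃ H₀ : ℝ, ∀ p ∈ Exc n κ (-c),
        Near ν θ β w (Real.exp (ht p) ^ (n * (n + 1))) → Real.exp (ht p) ^ (n * (n + 1)) < H₀ := by
  obtain ⟨E, h1, h2⟩ := family_threshold (fun p : UniformAbcWindows.Num => Real.exp (ht p) ^ (n * (n + 1))) hν
    (s := max e 0 / ((n + 1) * κ)) (div_nonneg (le_max_right _ _) (by positivity)) hθ U hU (J := ℕ)
    (fun j => Exc n κ (-(j : ℝ))) (fun j ε hε => count hn hκ (H (-(j : ℝ))) ε hε)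
  refine ⟨E, h1, fun w hw hwE β hβ hβ0 c => ?_⟩
  obtain ⟨j, hj⟩ := exists_nat_ge c
  obtain ⟨H₀, hH⟩ := h2 w hw hwE β hβ hβ0 j
  refine ⟨H₀, fun p hp => hH p ?_⟩
  obtain ⟨h1, h2, h3, h4⟩ := hp
  refine ⟨h1, h2, h3, lt_of_le_of_lt ?_ h4⟩
  linarith

/-- **Theorem.** There is a function `e ≥ 0` with `e n ≤ expo n` for `n ≥ 2` (so `e 2 ≤ 1`, `e 3 ≤ 5 / 4`,
`e n ≤ (n + 2) / 4` for primes) and `e n = O (log ^ 2 n)` such that for all `ν` with `ν k / log k → ∞` and all countable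
sets `U`: (1) For all `θ < 1`, `n ≥ 2` and `κ > 0` there is a set `E` of Hausdorff dimension at most
`e n / ((n + 1) κ (1 - θ))` such that for each `w > 1` outside `E`, each positive `β` in `U` and each `c`, for ALL number
fields `K` of degree `n` (in the algebraic closure of `ℚ`) and ALL `x ∈ K`, `x ≠ 0, 1`, for which `H ^ (n (n + 1))`,
`H = exp (height ![x, 1 - x, -1])`, is sufficiently large and `|H ^ (n (n + 1)) - β w ^ (ν k)| ≤ w ^ (θ ν k)` for some `k`
one has `log H ≤ κ (log δ_K + log N) - c`. (2) There is a set `E` of dimension zero such that for each `w > 1` outside `E`,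
each `θ < 1` and ALL `n ≥ 2` there is `κ` such that for each positive `β` in `U` there is `C` with
`log H ≤ κ (log δ_K + log N) + C` for ALL number fields `K` of degree `n` and ALL `x ∈ K`, `x ≠ 0, 1`, with
`|H ^ (n (n + 1)) - β w ^ (ν k)| ≤ w ^ (θ ν k)` for some `k`. -/
theorem result :
    ∃ e : ℕ → ℝ, (∀ n, 0 ≤ e n) ∧ (∀ n : ℕ, 2 ≤ n → e n ≤ expo n) ∧
      (∀ c : ℝ, 1 / (8 * (Real.log 2) ^ 2) < c → ∀ᶠ n : ℕ in Filter.atTop, e n ≤ c * (Real.log n) ^ 2) ∧
      ∀ ν : ℕ → ℝ, Fast ν → ∀ U : Set ℝ, U.Countable →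
        (∀ θ : ℝ, θ < 1 → ∀ n : ℕ, 2 ≤ n → ∀ κ : ℝ, 0 < κ →
          ∃ E : Set ℝ, dimH E ≤ ENNReal.ofReal (e n / ((n + 1) * κ) / (1 - θ)) ∧
            ∀ w : ℝ, 1 < w → w ∉ E → ∀ β ∈ U, 0 < β → ∀ c : ℝ, ∃ H₀ : ℝ,
              ∀ (K : IntermediateField ℚ (AlgebraicClosure ℚ)) [NumberField K] (x : K),
                Module.finrank ℚ K = n → x ≠ 0 → x ≠ 1 →
                H₀ ≤ Real.exp (height ![x, 1 - x, -1]) ^ (n * (n + 1)) →
                Near ν θ β w (Real.exp (height ![x, 1 - x, -1]) ^ (n * (n + 1))) →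
                  height ![x, 1 - x, -1] ≤ κ * (rootDisc K + conductor ![x, 1 - x, -1]) - c) ∧
        (∃ E : Set ℝ, dimH E = 0 ∧ ∀ w : ℝ, 1 < w → w ∉ E → ∀ θ : ℝ, θ < 1 → ∀ n : ℕ, 2 ≤ n →
          ∃ κ : ℝ, ∀ β ∈ U, 0 < β → ∃ C : ℝ,
            ∀ (K : IntermediateField ℚ (AlgebraicClosure ℚ)) [NumberField K] (x : K),
              Module.finrank ℚ K = n → x ≠ 0 → x ≠ 1 →
              Near ν θ β w (Real.exp (height ![x, 1 - x, -1]) ^ (n * (n + 1))) →
                height ![x, 1 - x, -1] ≤ κ * (rootDisc K + conductor ![x, 1 - x, -1]) + C) := by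
  obtain ⟨e, he1, he2, he3⟩ := FewViolators.result.1
  have hexpo : ∀ n : ℕ, 0 ≤ expo n := fun n => by
    unfold expo
    positivity
  refine ⟨fun n => max (e n) 0, fun n => le_max_right _ _, fun n hn => max_le (he2 n hn) (hexpo n),
    fun c hc => ?_, fun ν hν U hU => ⟨fun θ hθ n hn κ hκ => ?_, ?_⟩⟩
  · have hc0 : 0 < c := lt_trans (by
      have := Real.log_pos (by norm_num : (1 : ℝ) < 2)
      positivity) hc
    filter_upwards [he1 c hc] with n hn
    exact max_le hn (by positivity)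
  · obtain ⟨E, h1, h2⟩ := fam hn hκ (he3 n hn κ · · hκ ·) hν U hU hθ
    refine ⟨E, h1, fun w hw hwE β hβ hβ0 c => ?_⟩
    obtain ⟨H₀, hH⟩ := h2 w hw hwE β hβ hβ0 c
    refine ⟨H₀, fun K hK x hd hx0 hx1 hle hnear => ?_⟩
    by_contra hcon
    push Not at hcon
    refine absurd (hH ⟨⟨K, hK⟩, x⟩ ⟨hd, hx0, hx1, ?_⟩ hnear) (not_lt.2 hle)
    show -c + κ * (rootDisc K + conductor ![x, 1 - x, -1]) < height ![x, 1 - x, -1]
    linarith
  · set κ : ℕ → ℕ → ℝ := fun n j => 2 * ((j : ℝ) + 1) * (max (e (n + 2)) 0 + 1) with hκdef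
    have hκ : ∀ n j, 0 < κ n j := fun n j => by
      have : 0 ≤ max (e (n + 2)) 0 := le_max_right _ _
      positivity
    have hall : ∀ n : ℕ, ∃ E : Set ℝ, dimH E = 0 ∧ ∀ w : ℝ, 1 < w → w ∉ E → ∀ θ : ℝ, θ < 1 → ∀ q : Unit, ∃ j : ℕ,
        ∀ β ∈ U, 0 < β → ∀ i : Unit, {t | t ∈ Exc (n + 2) (κ n j) 0 ∧ ∃ k : ℕ,
          |Real.exp (ht t) ^ ((n + 2) * (n + 2 + 1)) - β * w ^ ν k| ≤ w ^ (θ * ν k)}.Finite := by
      intro n
      refine zero_family (Q := Unit) (J := Unit) (fun p : UniformAbcWindows.Num => Real.exp (ht p) ^ ((n + 2) * (n + 2 + 1))) hν U hU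
        (fun _ j _ => Exc (n + 2) (κ n j) 0) (fun _ j _ => ?_)
      obtain ⟨C, hC⟩ := count (n := n + 2) (c := 0) (by omega) (hκ n j) (he3 (n + 2) (by omega) (κ n j) 0 · (hκ n j) ·)
        (1 / (2 * ((j : ℝ) + 1))) (by positivity)
      refine ⟨|C|, fun X hX => ⟨(hC X hX).1, (hC X hX).2.trans ?_⟩⟩
      calc C * X ^ (max (e (n + 2)) 0 / ((((n + 2 : ℕ) : ℝ) + 1) * κ n j) + 1 / (2 * ((j : ℝ) + 1)))
          ≤ |C| * X ^ (max (e (n + 2)) 0 / ((((n + 2 : ℕ) : ℝ) + 1) * κ n j) + 1 / (2 * ((j : ℝ) + 1))) :=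
            mul_le_mul_of_nonneg_right (le_abs_self C) (by positivity)
        _ ≤ |C| * X ^ (1 / ((j : ℝ) + 1)) := by
            apply mul_le_mul_of_nonneg_left _ (abs_nonneg C)
            apply Real.rpow_le_rpow_of_exponent_le hX
            have hm : 0 ≤ max (e (n + 2)) 0 := le_max_right _ _
            have h3 : max (e (n + 2)) 0 / ((((n + 2 : ℕ) : ℝ) + 1) * κ n j) ≤ 1 / (2 * ((j : ℝ) + 1)) := by
              rw [div_le_div_iff₀ (mul_pos (by positivity) (hκ n j)) (by positivity), one_mul]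
              have h4 : (1 : ℝ) ≤ ((n + 2 : ℕ) : ℝ) + 1 := by
                have : (0 : ℝ) ≤ ((n + 2 : ℕ) : ℝ) := by positivity
                linarith
              calc max (e (n + 2)) 0 * (2 * ((j : ℝ) + 1)) ≤ κ n j := by
                    simp only [hκdef]
                    nlinarith [show (0 : ℝ) < 2 * ((j : ℝ) + 1) by positivity]
                _ = 1 * κ n j := (one_mul _).symm
                _ ≤ (((n + 2 : ℕ) : ℝ) + 1) * κ n j := mul_le_mul_of_nonneg_right h4 (hκ n j).le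
            have h5 : 1 / (2 * ((j : ℝ) + 1)) + 1 / (2 * ((j : ℝ) + 1)) = 1 / ((j : ℝ) + 1) := by
              field_simp
              norm_num
            linarith
    choose E h1 h2 using hall
    refine ⟨⋃ n, E n, ?_, fun w hw hwE θ hθ n hn => ?_⟩
    · rw [dimH_iUnion, ENNReal.iSup_eq_zero]
      exact h1
    · obtain ⟨n, rfl⟩ : ∃ m, n = m + 2 := ⟨n - 2, by omega⟩
      obtain ⟨j, hj⟩ := h2 n w hw (fun h => hwE (Set.mem_iUnion.2 ⟨n, h⟩)) θ hθ ()
      refine ⟨κ n j, fun β hβ hβ0 => ?_⟩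
      obtain ⟨C, hC⟩ := bound_of_finite (fun p : UniformAbcWindows.Num => ht p) (hj β hβ hβ0 ())
      refine ⟨max C 0, fun K hK x hd hx0 hx1 hnear => ?_⟩
      have hnn := nonneg ![x, 1 - x, -1]
      have hmul : 0 ≤ κ n j * (rootDisc K + conductor ![x, 1 - x, -1]) := mul_nonneg (hκ n j).le hnn
      by_contra hcon
      push Not at hcon
      have h3 : height ![x, 1 - x, -1] < C := hC ⟨⟨K, hK⟩, x⟩ ⟨⟨hd, hx0, hx1, by
        show 0 + κ n j * (rootDisc K + conductor ![x, 1 - x, -1]) < height ![x, 1 - x, -1]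
        have := le_max_right C 0
        linarith⟩, hnear⟩
      have := le_max_left C 0
      linarith

end Pool.Agent.Results.MP_6e34ef_nt.NumbersNearPowers
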